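import Pool.Agent.U99.ZD.Scales
import Pool.Agent.U99.ZD.Uni

/-!
# MP_3d0d30_nt: ranges of orders and the growth of the zeta function on every scale

`M_k(T) = ∫_0^T |ζ(1/2 + it)|^{2k} dt`, `Z t = |ζ(1/2 + it)|`; `Good k T` is the inequality
`M_k(T) ≤ T (log T)^{k²}` of Q2, and `S T = √(log T log log T)`.

For every scale `V` of larger order than `S` (`Scale V`) and every `c ≥ 0` the following are
equivalent: `Z t ≤ exp ((c + ε) V(t))` for all `ε > 0` and large `t`; Q2 holds for all large `T` and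
all `k ≥ (2 c + ε) V(T) / log log T`; Q2 holds for all large `T` and the single order
`k = (2 c + ε) V(T) / log log T`. At the critical scale `S` and for `a > 1`, the single order
`a S(T) / log log T` for all large `T` gives all larger orders, and Q2 implies
`Z t ≤ exp ((1 + ε) S(t))`. The tool is a bound for `Z` by one inequality `Good k T` which is uniform
in `k`.
-/

set_option autoImplicit false

namespace Pool.Agent.Results.MP_3d0d30_nt.EveryScale

open Filter
open Pool.Agent.Results.MP_3d0d30_nt.ReductionsAndLargeValues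
open Pool.Agent.U99.ZD

/-- the order `S(T) / log log T` is at least `2` for large `T` -/
lemma two_le' : ∃ T₀ : ℝ, 1000 ≤ T₀ ∧ ∀ T : ℝ, T₀ ≤ T →
    2 ≤ 1 * S T / Real.log (Real.log T) := by
  have h := Real.isLittleO_log_id_atTop.def (show (0:ℝ) < 1 / 4 by norm_num)
  obtain ⟨T₁, h1⟩ := eventually_atTop.1 (Real.tendsto_log_atTop.eventually h)
  refine ⟨max T₁ 1000, le_max_right _ _, fun T hT => ?_⟩
  have h2 := h1 T ((le_max_left _ _).trans hT)
  have h3 : 1000 ≤ T := (le_max_right _ _).trans hT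
  have hl := log_ge h3
  have hll := loglog_ge h3
  have hll0 : 0 < Real.log (Real.log T) := by linarith
  simp only [id_eq, Real.norm_eq_abs] at h2
  rw [abs_of_pos hll0, abs_of_pos (by linarith : (0:ℝ) < Real.log T)] at h2
  rw [le_div_iff₀ hll0, one_mul]
  apply Real.le_sqrt_of_sq_le
  nlinarith

/-- **The growth of the zeta function and the ranges of Q2, on every scale.** -/
theorem result :
    -- (1) every scale above `S`, with exact constants
    (∀ V : ℝ → ℝ, Scale V → ∀ c : ℝ, 0 ≤ c →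
      (Growth V c ↔ Range V (2 * c)) ∧ (Growth V c ↔ Single V (2 * c))) ∧
    -- (2) the critical scale `S`
    (∀ a : ℝ, 0 < a →
      (∃ T₀ : ℝ, ∀ T : ℝ, T₀ ≤ T → Good (a * S T / Real.log (Real.log T)) T) →
      Growth S (1 / (2 * a) + a / 2)) ∧
    (∀ a : ℝ, 1 < a →
      ((∃ T₀ : ℝ, ∀ T : ℝ, T₀ ≤ T → Good (a * S T / Real.log (Real.log T)) T) ↔
        ∃ T₀ : ℝ, ∀ T : ℝ, T₀ ≤ T → ∀ k : ℝ, a * S T / Real.log (Real.log T) ≤ k → Good k T)) ∧
    (Q2 → Growth S 1) ∧
    -- (3) the tool: one inequality `Good k T` bounds the zeta function, uniformly in `k`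
    (∀ ε : ℝ, 0 < ε → ∃ T₀ : ℝ, ∀ T : ℝ, T₀ ≤ T → ∀ k : ℝ, 0 < k → Good k T →
      ∀ t : ℝ, T₀ ≤ t → t ≤ T - 1 →
      Z t ≤ Real.exp ((1 + ε) * (Real.log T / (2 * k) + k / 2 * Real.log (Real.log T)))) ∧
    -- (4) examples of scales
    Scale Real.log ∧ Scale (fun T => Real.log T / Real.log (Real.log T)) ∧
    (∀ α : ℝ, 1 / 2 < α → Scale (fun T => Real.log T ^ α)) := by
  have hcrit := @critical_sharp
  refine ⟨fun V hV c hc => ?_, fun a ha h => hcrit ha h, fun a ha => ⟨self_reflect ha, ?_⟩, ?_,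
    uniform, scale_log, scale_log_div, scale_pow⟩
  · have h1 : Growth V c → Range V (2 * c) := range_of hV.mono (tends hV.big) hc
    exact ⟨⟨h1, fun h => growth_of hV hc (single_of hV hc h)⟩,
      ⟨fun h => single_of hV hc (h1 h), growth_of hV hc⟩⟩
  · rintro ⟨T₀, h⟩
    exact ⟨T₀, fun T hT => h T hT _ le_rfl⟩
  · intro hQ
    obtain ⟨T₀, h0, h2⟩ := two_le'
    have h := hcrit (a := 1) one_pos ⟨max T₀ 1001, fun T hT =>
      hQ _ T (h2 T ((le_max_left _ _).trans hT)) (by linarith [(le_max_right T₀ 1001).trans hT])⟩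
    have e : (1:ℝ) / (2 * 1) + 1 / 2 = 1 := by norm_num
    rwa [e] at h

end Pool.Agent.Results.MP_3d0d30_nt.EveryScale
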