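import Pool.Agent.Results.MP_3d0d30_nt.ReductionsAndLargeValues
import Pool.Agent.N879.GD.Cru

/-!
# MP_3d0d30_nt: large orders, and the exact range in terms of the growth exponent

`M_k(T) = ∫_0^T |ζ(1/2 + it)|^{2k} dt`, `Z t = |ζ(1/2 + it)|`.

(1) For every `ε > 0` there is `k₀` such that the inequality `M_k(T) ≤ T (log T)^{k²}` of Q2 holds
for every real `k ≥ k₀` and every `T` with `1000 ≤ T ≤ k ^ ((3 - ε) k)`.
(2) For every `ε > 0` it holds for all large `T` and all `k ≥ (1/3 + ε) log T / log log T`.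
(3) The constant `1/3` in (2) is exactly twice the exponent in the best known growth bound: for
every `μ ≥ 0` the inequality holds (for each `ε > 0`) for all large `T` and all
`k ≥ (2 μ + ε) log T / log log T` if and only if `ζ(1/2 + it) = O(t ^ (μ + ε))` for all `ε > 0`; it
is enough to know it for the single order `k = (2 μ + ε) log T / log log T`. For `μ = 0` the right
hand side is the Lindelöf hypothesis.
(`of_Q2`: Q2 implies `|ζ(1/2 + it)| ≤ 2 exp (2 √(log T log log T))` for `T > 1000`, `0 ≤ t ≤ T - 1`.)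
-/

set_option autoImplicit false

namespace Pool.Agent.Results.MP_3d0d30_nt.LargeOrders

open Complex MeasureTheory Set Filter
open Pool.Agent.Results.MP_3d0d30_nt.ReductionsAndLargeValues

/-! ### from growth to moments -/

/-- a growth bound on `[0, T]` -/
lemma growth_Icc {ν : ℝ} (hν : 0 < ν) (h : ∃ t₀ : ℝ, ∀ t : ℝ, t₀ ≤ t → Z t ≤ t ^ ν) :
    ∃ T₀ : ℝ, 1000 ≤ T₀ ∧ ∀ T : ℝ, T₀ ≤ T → ∀ t ∈ Icc (0:ℝ) T, Z t ≤ T ^ ν := by
  obtain ⟨t₀, hw⟩ := h
  obtain ⟨C, hC⟩ := (isCompact_Icc (a := (0:ℝ)) (b := t₀)).exists_bound_of_continuousOn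
    Z_cont.continuousOn
  have hlim : ∀ᶠ T : ℝ in atTop, C ≤ T ^ ν := (tendsto_rpow_atTop hν).eventually_ge_atTop C
  obtain ⟨T₁, hT₁⟩ := eventually_atTop.1 hlim
  refine ⟨max T₁ 1000, le_max_right _ _, fun T hT t ht => ?_⟩
  have hT1 : T₁ ≤ T := (le_max_left _ _).trans hT
  rcases le_total t t₀ with h | h
  · have h1 := hC t ⟨ht.1, h⟩
    rw [Real.norm_of_nonneg (Z_nonneg t)] at h1
    exact h1.trans (hT₁ T hT1)
  · exact (hw t h).trans (Real.rpow_le_rpow ht.1 ht.2 hν.le)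

/-- large `T` -/
lemma large_T {μ δ : ℝ} (hμ : 0 ≤ μ) (hδ : 0 < δ)
    (h : ∃ t₀ : ℝ, ∀ t : ℝ, t₀ ≤ t → Z t ≤ t ^ (μ + δ)) :
    ∃ T₀ : ℝ, 1000 ≤ T₀ ∧ ∀ T : ℝ, T₀ ≤ T → ∀ k : ℝ, 2 ≤ k →
    (2 * μ + 2 * δ) * Real.log T ≤ (k + 2) * Real.log (Real.log T) → Good k T := by
  obtain ⟨T₀, h0, h⟩ := growth_Icc (by positivity) h
  refine ⟨T₀, h0, fun T hT k hk hkT => ?_⟩
  have hT2 : 1000 ≤ T := h0.trans hT
  have hT0 : 0 < T := by linarith
  have hl := log_ge hT2
  have hl0 : 0 < Real.log T := by linarith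
  have hll := loglog_ge hT2
  have hll0 : 0 < Real.log (Real.log T) := by linarith
  refine reflect (κ := (μ + δ) * Real.log T / Real.log (Real.log T)) (j := 2) hT2 ?_
    (by norm_num) (good_two T hT2) hk ?_
  · intro t ht
    refine (h T hT t ht).trans (le_of_eq ?_)
    rw [Real.rpow_def_of_pos hT0, Real.rpow_def_of_pos hl0]
    congr 1
    field_simp
  · rw [sub_le_iff_le_add, ← mul_div_assoc, div_le_iff₀ hll0]
    linarith

lemma weyl' (δ : ℝ) (hδ : 0 < δ) : ∃ t₀ : ℝ, ∀ t : ℝ, t₀ ≤ t → Z t ≤ t ^ (1 / 6 + δ) := by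
  obtain ⟨t₀, -, h⟩ := weyl δ hδ
  exact ⟨t₀, h⟩

/-- **Large orders.** Q2 for `k ≥ k₀(ε)` and `1000 ≤ T ≤ k ^ ((3 - ε) k)` -/
theorem large (ε : ℝ) (hε : 0 < ε) : ∃ k₀ : ℝ, ∀ k : ℝ, k₀ ≤ k → 2 ≤ k → ∀ T : ℝ, 1000 ≤ T →
    T ≤ k ^ ((3 - ε) * k) → M k T ≤ T * Real.log T ^ (k ^ 2) := by
  -- we may assume `ε ≤ 1`
  wlog hε1 : ε ≤ 1 generalizing ε with H
  · obtain ⟨k₀, h⟩ := H 1 one_pos le_rfl
    refine ⟨k₀, fun k hk hk2 T hT hT2 => h k hk hk2 T hT (hT2.trans ?_)⟩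
    apply Real.rpow_le_rpow_of_exponent_le (by linarith)
    nlinarith
  obtain ⟨T₀, h0, h⟩ := large_T (μ := 1 / 6) (δ := ε / 18) (by norm_num) (by positivity)
    (weyl' _ (by positivity))
  -- `k₀`: `T₀` lies in the range of the starting result
  refine ⟨max 3 T₀, fun k hk hk2 T hT hT2 => ?_⟩
  have hk3 : 3 ≤ k := (le_max_left _ _).trans hk
  have hkT : T₀ ≤ k := (le_max_right _ _).trans hk
  have hk0 : 0 < k := by linarith
  have hT0 : 0 < T := by linarith
  have hlk : 1 ≤ Real.log k := by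
    rw [Real.le_log_iff_exp_le hk0]
    linarith [Real.exp_one_lt_d9]
  rcases le_or_gt T T₀ with h1 | h1
  · -- small `T`
    have h2 : T ≤ (2 * k * Real.log k) ^ (2 * k) := by
      have h3 : k ≤ 2 * k * Real.log k := by nlinarith
      calc T ≤ k := h1.trans hkT
        _ ≤ 2 * k * Real.log k := h3
        _ = (2 * k * Real.log k) ^ (1:ℝ) := (Real.rpow_one _).symm
        _ ≤ _ := Real.rpow_le_rpow_of_exponent_le (by linarith) (by linarith)
    rw [M_eq]
    have h3 := Pool.Agent.TH158.FM.all_region k T hk2 hT h2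
    have h4 : 0 ≤ T * Real.log T ^ (k ^ 2) :=
      mul_nonneg hT0.le (Real.rpow_nonneg (by linarith [log_ge hT]) _)
    linarith
  · -- large `T`
    have hl := log_ge hT
    have hl0 : 0 < Real.log T := by linarith
    refine h T h1.le k hk2 ?_
    have h3 : Real.log T ≤ (3 - ε) * k * Real.log k := by
      have := Real.log_le_log hT0 hT2
      rwa [Real.log_rpow hk0] at this
    -- `log T / log log T ≤ (3 - ε) k`
    have h4 : Real.log T ≤ (3 - ε) * k * Real.log (Real.log T) := by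
      by_contra hcon
      push Not at hcon
      have hpos : 0 < (3 - ε) * k := mul_pos (by linarith) hk0
      have h5 : Real.log (Real.log T) < Real.log k := by
        have := hcon.trans_le h3
        exact lt_of_mul_lt_mul_left this hpos.le
      have h6 : Real.log T < k := by
        rwa [Real.log_lt_log_iff hl0 hk0] at h5
      have hll := loglog_ge hT
      nlinarith [mul_pos hk0 (by linarith : (0:ℝ) < Real.log (Real.log T))]
    have hll := loglog_ge hT
    have hkl : 0 < k * Real.log (Real.log T) := mul_pos hk0 (by linarith)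
    have h5 : (2 * (1 / 6) + 2 * (ε / 18)) * Real.log T ≤
        (2 * (1 / 6) + 2 * (ε / 18)) * ((3 - ε) * k * Real.log (Real.log T)) := by
      apply mul_le_mul_of_nonneg_left h4
      positivity
    have h6 : (2 * (1 / 6) + 2 * (ε / 18)) * (3 - ε) ≤ 1 := by nlinarith [mul_pos hε hε]
    nlinarith [mul_le_mul_of_nonneg_right h6 hkl.le]

/-- from the growth of zeta to large orders -/
theorem range_of_growth {μ : ℝ} (hμ : 0 ≤ μ)
    (h : ∀ ε : ℝ, 0 < ε → ∃ t₀ : ℝ, ∀ t : ℝ, t₀ ≤ t → Z t ≤ t ^ (μ + ε)) (ε : ℝ) (hε : 0 < ε) :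
    ∃ T₀ : ℝ, 1000 ≤ T₀ ∧ ∀ T : ℝ, T₀ ≤ T → ∀ k : ℝ, 2 ≤ k →
      (2 * μ + ε) * (Real.log T / Real.log (Real.log T)) ≤ k →
      M k T ≤ T * Real.log T ^ (k ^ 2) := by
  obtain ⟨T₀, h0, h⟩ := large_T (μ := μ) (δ := ε / 2) hμ (by positivity) (h _ (by positivity))
  refine ⟨T₀, h0, fun T hT k hk hkT => h T hT k hk ?_⟩
  have hll := loglog_ge (h0.trans hT)
  rw [← mul_div_assoc, div_le_iff₀ (by linarith)] at hkT
  have e : 2 * μ + 2 * (ε / 2) = 2 * μ + ε := by ring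
  rw [e]
  nlinarith

/-! ### from moments to growth -/

/-- the zeta function varies slowly -/
lemma Z_slow {T t u : ℝ} (ht : t ∈ Icc (0:ℝ) T) (hu : u ∈ Icc (0:ℝ) T) :
    Z t - Z u ≤ 448 * (1 + T) ^ 2 * |u - t| := by
  have h1 := Convex.norm_image_sub_le_of_norm_deriv_le (𝕜 := ℝ)
    (f := fun x : ℝ => riemannZeta (1 / 2 + I * x))
    (C := 448 * (1 + T) ^ 2) (s := Icc 0 T) (x := t) (y := u)
    (fun x _ => (Pool.Agent.N879.GD.Cru.hasDeriv x).differentiableAt) (fun x hx => by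
      rw [(Pool.Agent.N879.GD.Cru.hasDeriv x).deriv, norm_mul, norm_I, mul_one]
      refine (Pool.Agent.N879.GD.Cru.deriv_zeta hx.1).trans ?_
      have := hx.1
      have := hx.2
      gcongr) (convex_Icc _ _) ht hu
  rw [Real.norm_eq_abs] at h1
  have e : ∀ x : ℝ, Z x = ‖riemannZeta (1 / 2 + I * x)‖ := by
    intro x
    unfold Z
    rw [mul_comm]
  rw [e, e]
  refine le_trans ?_ h1
  rw [norm_sub_rev]
  exact norm_sub_norm_le _ _

/-- one moment bounds the zeta function -/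
lemma point {k T t : ℝ} (hT : 1000 ≤ T) (hk : 0 < k) (hg : Good k T) (ht : t ∈ Icc (0:ℝ) (T - 1)) :
    Z t ≤ 2 * Real.exp (2 * Real.log T / k + k / 2 * Real.log (Real.log T)) := by
  have hl := log_ge hT
  have hl0 : 0 < Real.log T := by linarith
  have hll := loglog_ge hT
  have hT0 : 0 < T := by linarith
  rcases le_or_gt (Z t) 1 with h | h
  · have : (1:ℝ) ≤ Real.exp (2 * Real.log T / k + k / 2 * Real.log (Real.log T)) :=
      Real.one_le_exp (by positivity)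
    linarith
  set D : ℝ := 448 * (1 + T) ^ 2 with hD
  have hD1 : 1 ≤ D := by rw [hD]; nlinarith
  have hD0 : 0 < D := by linarith
  set δ : ℝ := 1 / (2 * D) with hδ
  have hδ0 : 0 < δ := by positivity
  have hδ1 : δ ≤ 1 := by
    rw [hδ, div_le_one (by positivity)]
    linarith
  have htT : t ≤ T := by linarith [ht.2]
  have hlow : ∀ u ∈ Icc t (t + δ), Z t / 2 ≤ Z u := by
    intro u hu
    have h1 := Z_slow (T := T) (t := t) (u := u) ⟨ht.1, htT⟩
      ⟨ht.1.trans hu.1, by linarith [hu.2, ht.2]⟩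
    rw [← hD, abs_of_nonneg (by linarith [hu.1])] at h1
    have h2 : D * (u - t) ≤ D * δ := by
      apply mul_le_mul_of_nonneg_left _ hD0.le
      linarith [hu.2]
    have h3 : D * δ = 1 / 2 := by
      rw [hδ]
      field_simp
    linarith
  have hc : Continuous fun u : ℝ => Z u ^ (2 * k) :=
    Z_cont.rpow_const fun u => Or.inr (by positivity)
  have h1 : δ * (Z t / 2) ^ (2 * k) ≤ M k T := by
    have h2 : ∫ u in t..(t + δ), (Z t / 2) ^ (2 * k) ≤ ∫ u in t..(t + δ), Z u ^ (2 * k) := by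
      refine intervalIntegral.integral_mono_on (by linarith) (by simp) (hc.intervalIntegrable _ _)
        fun u hu => ?_
      have := hlow u hu
      exact Real.rpow_le_rpow (by linarith) this (by positivity)
    rw [intervalIntegral.integral_const, smul_eq_mul, add_sub_cancel_left] at h2
    refine h2.trans ?_
    unfold M
    refine intervalIntegral.integral_mono_interval ht.1 (by linarith) (by linarith [ht.2]) ?_
      (hc.intervalIntegrable _ _)
    exact Eventually.of_forall fun u => Real.rpow_nonneg (Z_nonneg u) _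
  have h2 : (Z t / 2) ^ (2 * k) ≤ T ^ (4:ℝ) * Real.log T ^ (k ^ 2) := by
    have h3 := h1.trans hg
    rw [hδ, one_div, inv_mul_le_iff₀ (by positivity)] at h3
    refine h3.trans ?_
    rw [← mul_assoc]
    apply mul_le_mul_of_nonneg_right _ (Real.rpow_nonneg hl0.le _)
    have e : T ^ (4:ℝ) = T ^ 4 := by norm_cast
    rw [e, hD]
    have h4 : (1 + T) ^ 2 ≤ 1.01 * T ^ 2 := by nlinarith
    have h5 : 0 ≤ T ^ 3 := by positivity
    nlinarith [mul_le_mul_of_nonneg_right h4 hT0.le, mul_le_mul_of_nonneg_right hT h5]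
  have h3 : 2 * k * Real.log (Z t / 2) ≤ 4 * Real.log T + k ^ 2 * Real.log (Real.log T) := by
    have hz : 0 < Z t / 2 := by linarith
    have h4 := Real.log_le_log (Real.rpow_pos_of_pos hz _) h2
    rwa [Real.log_rpow hz, Real.log_mul (Real.rpow_pos_of_pos hT0 _).ne'
      (Real.rpow_pos_of_pos hl0 _).ne', Real.log_rpow hT0, Real.log_rpow hl0] at h4
  have h4 : Real.log (Z t / 2) ≤ 2 * Real.log T / k + k / 2 * Real.log (Real.log T) := by
    have h5 : Real.log (Z t / 2) ≤ (4 * Real.log T + k ^ 2 * Real.log (Real.log T)) / (2 * k) := by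
      rw [le_div_iff₀ (by positivity)]
      linarith
    refine h5.trans (le_of_eq ?_)
    field_simp
    ring
  have h5 := (Real.log_le_iff_le_exp (by linarith)).1 h4
  linarith

/-- the asymptotics -/
lemma asym {μ ε : ℝ} (hμ : 0 ≤ μ) (hε : 0 < ε) : ∀ᶠ t : ℝ in atTop,
    Real.log 2 + 2 / (2 * μ + ε) * Real.log (Real.log (t + 1)) + (2 * μ + ε) / 2 * Real.log (t + 1) ≤
      (μ + ε) * Real.log t := by
  have hx : Tendsto (fun t : ℝ => Real.log (t + 1)) atTop atTop :=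
    Real.tendsto_log_atTop.comp (tendsto_atTop_add_const_right _ 1 tendsto_id)
  have h1 := hx.eventually (Real.isLittleO_log_id_atTop.def
    (show (0:ℝ) < ε * (2 * μ + ε) / 16 by positivity))
  have h2 := hx.eventually_ge_atTop (8 * Real.log 2 / ε)
  have h3 := Real.tendsto_log_atTop.eventually_ge_atTop (4 * (μ + 3 * ε / 4) * Real.log 2 / ε)
  filter_upwards [h1, h2, h3, eventually_ge_atTop (2:ℝ), hx.eventually_ge_atTop 1] with t h1 h2 h3 ht hl
  have hl0 : 0 < Real.log (t + 1) := by linarith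
  have e1 : 2 / (2 * μ + ε) * Real.log (Real.log (t + 1)) ≤ ε / 8 * Real.log (t + 1) := by
    simp only [id_eq, Real.norm_eq_abs] at h1
    rw [abs_of_pos hl0] at h1
    have h4 := (le_abs_self _).trans h1
    calc 2 / (2 * μ + ε) * Real.log (Real.log (t + 1)) ≤
        2 / (2 * μ + ε) * (ε * (2 * μ + ε) / 16 * Real.log (t + 1)) := by gcongr
      _ = _ := by
        field_simp
        ring
  have e2 : Real.log 2 ≤ ε / 8 * Real.log (t + 1) := by
    rw [div_le_iff₀ hε] at h2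
    linarith
  have e3 : Real.log (t + 1) ≤ Real.log t + Real.log 2 := by
    rw [← Real.log_mul (by linarith) (by norm_num)]
    exact Real.log_le_log (by linarith) (by linarith)
  have e4 : 4 * (μ + 3 * ε / 4) * Real.log 2 ≤ ε * Real.log t := by
    rw [div_le_iff₀ hε] at h3
    linarith
  have e5 : (μ + 3 * ε / 4) * Real.log (t + 1) ≤ (μ + 3 * ε / 4) * (Real.log t + Real.log 2) :=
    mul_le_mul_of_nonneg_left e3 (by positivity)
  nlinarith

/-- from single orders to the growth of zeta -/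
theorem growth_of_single {μ : ℝ} (hμ : 0 ≤ μ)
    (h : ∀ ε : ℝ, 0 < ε → ∃ T₀ : ℝ, ∀ T : ℝ, T₀ ≤ T →
      M ((2 * μ + ε) * (Real.log T / Real.log (Real.log T))) T ≤
        T * Real.log T ^ (((2 * μ + ε) * (Real.log T / Real.log (Real.log T))) ^ 2))
    (ε : ℝ) (hε : 0 < ε) : ∃ t₀ : ℝ, ∀ t : ℝ, t₀ ≤ t → Z t ≤ t ^ (μ + ε) := by
  obtain ⟨T₀, h⟩ := h ε hε
  obtain ⟨t₁, ht₁⟩ := eventually_atTop.1 (asym hμ hε)
  refine ⟨max (max T₀ 1000) t₁, fun t ht => ?_⟩
  have h1 : T₀ ≤ t := (le_max_left _ _).trans ((le_max_left _ _).trans ht)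
  have h2 : 1000 ≤ t := (le_max_right _ _).trans ((le_max_left _ _).trans ht)
  have h3 := ht₁ t ((le_max_right _ _).trans ht)
  have hT : 1000 ≤ t + 1 := by linarith
  have hl := log_ge hT
  have hll := loglog_ge hT
  have hl0 : 0 < Real.log (t + 1) := by linarith
  have hll0 : 0 < Real.log (Real.log (t + 1)) := by linarith
  have h4 := point hT (k := (2 * μ + ε) * (Real.log (t + 1) / Real.log (Real.log (t + 1))))
    (by positivity) (h (t + 1) (by linarith)) (t := t) ⟨by linarith, by linarith⟩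
  refine h4.trans ?_
  rw [Real.rpow_def_of_pos (by linarith)]
  calc 2 * Real.exp (2 * Real.log (t + 1) /
          ((2 * μ + ε) * (Real.log (t + 1) / Real.log (Real.log (t + 1)))) +
        (2 * μ + ε) * (Real.log (t + 1) / Real.log (Real.log (t + 1))) / 2 *
          Real.log (Real.log (t + 1)))
      = Real.exp (Real.log 2 + 2 / (2 * μ + ε) * Real.log (Real.log (t + 1)) +
          (2 * μ + ε) / 2 * Real.log (t + 1)) := by
        rw [add_assoc, Real.exp_add (Real.log 2), Real.exp_log (by norm_num)]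
        congr 2
        field_simp
    _ ≤ _ := by
        apply Real.exp_le_exp.2
        linarith

/-- from ranges to single orders -/
theorem single_of_range {μ : ℝ} (hμ : 0 ≤ μ)
    (h : ∀ ε : ℝ, 0 < ε → ∃ T₀ : ℝ, ∀ T : ℝ, T₀ ≤ T → ∀ k : ℝ, 2 ≤ k →
      (2 * μ + ε) * (Real.log T / Real.log (Real.log T)) ≤ k →
      M k T ≤ T * Real.log T ^ (k ^ 2)) (ε : ℝ) (hε : 0 < ε) :
    ∃ T₀ : ℝ, ∀ T : ℝ, T₀ ≤ T →
      M ((2 * μ + ε) * (Real.log T / Real.log (Real.log T))) T ≤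
        T * Real.log T ^ (((2 * μ + ε) * (Real.log T / Real.log (Real.log T))) ^ 2) := by
  obtain ⟨T₀, h⟩ := h ε hε
  have h1 := Real.tendsto_log_atTop.eventually (Real.isLittleO_log_id_atTop.def
    (show (0:ℝ) < (2 * μ + ε) / 2 by positivity))
  obtain ⟨T₁, hT₁⟩ := eventually_atTop.1 h1
  refine ⟨max (max T₀ 1000) T₁, fun T hT => ?_⟩
  have h2 : T₀ ≤ T := (le_max_left _ _).trans ((le_max_left _ _).trans hT)
  have h3 : 1000 ≤ T := (le_max_right _ _).trans ((le_max_left _ _).trans hT)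
  have h4 := hT₁ T ((le_max_right _ _).trans hT)
  have hl := log_ge h3
  have hll := loglog_ge h3
  have hll0 : 0 < Real.log (Real.log T) := by linarith
  simp only [id_eq, Real.norm_eq_abs] at h4
  rw [abs_of_pos hll0, abs_of_pos (by linarith : 0 < Real.log T)] at h4
  refine h T h2 _ ?_ le_rfl
  rw [← mul_div_assoc, le_div_iff₀ hll0]
  linarith

/-- a consequence of Q2 -/
theorem of_Q2 (hQ : Q2) (T : ℝ) (hT : 1000 < T) (t : ℝ) (ht0 : 0 ≤ t) (htT : t ≤ T - 1) :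
    Z t ≤ 2 * Real.exp (2 * Real.sqrt (Real.log T * Real.log (Real.log T))) := by
  have hl := log_ge hT.le
  have hll := loglog_ge hT.le
  have hl0 : 0 < Real.log T := by linarith
  have hll0 : 0 < Real.log (Real.log T) := by linarith
  have hle : Real.log (Real.log T) ≤ Real.log T := by
    have := Real.log_le_sub_one_of_pos hl0
    linarith
  set a : ℝ := Real.sqrt (Real.log T) with ha
  set b : ℝ := Real.sqrt (Real.log (Real.log T)) with hb
  have ha0 : 0 < a := Real.sqrt_pos.2 hl0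
  have hb0 : 0 < b := Real.sqrt_pos.2 hll0
  have ha2 : a ^ 2 = Real.log T := Real.sq_sqrt hl0.le
  have hb2 : b ^ 2 = Real.log (Real.log T) := Real.sq_sqrt hll0.le
  have hba : b ≤ a := Real.sqrt_le_sqrt hle
  have hk : 2 ≤ 2 * (a / b) := by
    have : 1 ≤ a / b := (one_le_div hb0).2 hba
    linarith
  refine (point hT.le (k := 2 * (a / b)) (by positivity) (hQ _ T hk hT) ⟨ht0, htT⟩).trans
    (le_of_eq ?_)
  rw [Real.sqrt_mul hl0.le, ← ha, ← hb, ← ha2]
  rw [show Real.log (a ^ 2) = b ^ 2 by rw [ha2, hb2]]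
  congr 2
  field_simp
  ring

/-- Large orders: Q2 for `k ≥ k₀(ε)` and `1000 ≤ T ≤ k ^ ((3 - ε) k)`, and the exact range: for
`μ ≥ 0` the inequality of Q2 holds for `k ≥ (2 μ + ε) log T / log log T` (all large `T`) if and
only if the growth exponent of `ζ(1/2 + it)` is at most `μ`; one order for each `T` decides. -/
theorem result :
    -- (1) large orders
    (∀ ε : ℝ, 0 < ε → ∃ k₀ : ℝ, ∀ k : ℝ, k₀ ≤ k → 2 ≤ k → ∀ T : ℝ, 1000 ≤ T →
      T ≤ k ^ ((3 - ε) * k) → M k T ≤ T * Real.log T ^ (k ^ 2)) ∧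
    -- (2) the same in terms of `T`
    (∀ ε : ℝ, 0 < ε → ∃ T₀ : ℝ, ∀ T : ℝ, T₀ ≤ T → ∀ k : ℝ, 2 ≤ k →
      (1 / 3 + ε) * (Real.log T / Real.log (Real.log T)) ≤ k →
      M k T ≤ T * Real.log T ^ (k ^ 2)) ∧
    -- (3) the range is exact
    (∀ μ : ℝ, 0 ≤ μ →
      ((∀ ε : ℝ, 0 < ε → ∃ T₀ : ℝ, ∀ T : ℝ, T₀ ≤ T → ∀ k : ℝ, 2 ≤ k →
          (2 * μ + ε) * (Real.log T / Real.log (Real.log T)) ≤ k →
          M k T ≤ T * Real.log T ^ (k ^ 2)) ↔
        ∀ ε : ℝ, 0 < ε → ∃ t₀ : ℝ, ∀ t : ℝ, t₀ ≤ t → Z t ≤ t ^ (μ + ε)) ∧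
      ((∀ ε : ℝ, 0 < ε → ∃ T₀ : ℝ, ∀ T : ℝ, T₀ ≤ T →
          M ((2 * μ + ε) * (Real.log T / Real.log (Real.log T))) T ≤
            T * Real.log T ^ (((2 * μ + ε) * (Real.log T / Real.log (Real.log T))) ^ 2)) ↔
        ∀ ε : ℝ, 0 < ε → ∃ t₀ : ℝ, ∀ t : ℝ, t₀ ≤ t → Z t ≤ t ^ (μ + ε))) := by
  have hR : ∀ μ : ℝ, 0 ≤ μ →
      (∀ ε : ℝ, 0 < ε → ∃ t₀ : ℝ, ∀ t : ℝ, t₀ ≤ t → Z t ≤ t ^ (μ + ε)) →
      ∀ ε : ℝ, 0 < ε → ∃ T₀ : ℝ, ∀ T : ℝ, T₀ ≤ T → ∀ k : ℝ, 2 ≤ k →
          (2 * μ + ε) * (Real.log T / Real.log (Real.log T)) ≤ k →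
          M k T ≤ T * Real.log T ^ (k ^ 2) := by
    intro μ hμ h ε hε
    obtain ⟨T₀, -, h1⟩ := range_of_growth hμ h ε hε
    exact ⟨T₀, h1⟩
  refine ⟨large, ?_, fun μ hμ => ⟨⟨fun h => growth_of_single hμ (single_of_range hμ h), hR μ hμ⟩,
    ⟨growth_of_single hμ, fun h => single_of_range hμ (hR μ hμ h)⟩⟩⟩
  have h := hR (1 / 6) (by norm_num) weyl'
  have e : (2 * (1 / 6) : ℝ) = 1 / 3 := by norm_num
  rwa [e] at h

end Pool.Agent.Results.MP_3d0d30_nt.LargeOrders
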