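import Mathlib
import Pool.Agent.U575.MU.Mom2

/-!
# MP_3d0d30_nt: no mollifier of polynomial length lowers the order of growth of the high moments of zeta

Let `M_k(T) = (1/T) ∫_0^T |ζ(1/2 + it)|^(2k) dt`.

* (one mollified moment controls the large values, unconditional) For all `ε > 0` and `B` there are `δ > 0`, `C` and `T₀` such
  that for all `T ≥ T₀`, all real `p > 0` and ALL functions `G` which are analytic with `|G| ≤ T^B` in `1/4 ≤ Re s ≤ 6`,
  `T/2 ≤ Im s ≤ 3T`, and satisfy `T^(-δ) ≤ |G| ≤ T^δ` for `Re s ≥ 3`: the set of `t ∈ [T, 2T]` with `|ζ(1/2 + it)| ≥ t^ε` has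
  measure at most `T^(C - pδ) ∫_{T/2}^{3T} |ζ(1/2 + it) G(1/2 + it)|^p dt`.  Neither `δ` nor `C` depends on `p` or `G`.
* (criterion) The Lindelöf hypothesis holds if and only if for some `B` the mollified `2k`-th moments grow like `T^(o(k))`: for
  every `η > 0` there is ONE `k ≥ 1/η` such that for all large `T` some Dirichlet polynomial `D(s) = ∑_{n ≤ N} b_n n^(-s)`,
  `b_1 = 1`, `|b_n| ≤ n`, `N ≤ T^B`, which may depend on `T` and `k`, satisfies `∫_T^{2T} |ζ D(1/2 + it)|^(2k) dt ≤ T^(ηk)`.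
* (moments) Hence `M_k(T) = O(T^ε)` for all `k` and `ε > 0` if and only if for some `B` the same is true of the moments
  mollified by Dirichlet polynomials of length `T^B` which may depend on `k`, `ε` and `T`; and `M_k(T) = O(T^ε)` for all `k`, `ε`
  follows from the `o(k)` bound for the moments of `ζ G`, for analytic multipliers `G = G_(k,T)` of polynomial growth
  which are bounded and bounded away from `0` for `Re s ≥ 3`.
* (joint moments) If the moments of `ζ(1/2 + it) ∏_j L(1/2 + it + a_j, χ_j)` have the `o(k)` bound, for one family of Dirichlet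
  characters and shifts with `Re a_j ≥ 0` (for instance the moments of the Dedekind zeta function of one abelian field, or those of
  `ζ(s) ζ(s + ia)`), then `M_k(T) = O(T^ε)` for all `k` and `ε > 0`.

The proof combines the law of the hand-in MP_4e5e8a_nt.MollifiersDoNotHelp (a large value of zeta leaves a large value of `ζ G`
at distance `O(1)`, whatever `G`) with a bound for the variation of `ζ G` and an integration over all large values.
-/

set_option autoImplicit false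

open Filter Topology MeasureTheory

namespace Pool.Agent.Results.MP_3d0d30_nt.MollifiedMoments

/-- the zeta function on the critical line -/
noncomputable def Z (t : ℝ) : ℂ := riemannZeta (1 / 2 + t * Complex.I)

/-- the Lindelöf hypothesis -/
def Lindelof : Prop := ∀ ε : ℝ, 0 < ε → ∃ C : ℝ, ∀ t : ℝ, ‖Z t‖ ≤ C * (1 + |t|) ^ ε

/-- the moment `M_k(T)` -/
noncomputable def moment (k : ℕ) (T : ℝ) : ℝ := 1 / T * ∫ t in (0 : ℝ)..T, ‖Z t‖ ^ (2 * k)

/-- the moment `M_k(T)` of the problem, `k` real -/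
noncomputable def M (k T : ℝ) : ℝ := ∫ t in (0 : ℝ)..T, ‖Z t‖ ^ (2 * k)

/-- all moments are `O(T^ε)` -/
def MomentsSmall : Prop := ∀ (k : ℕ) (ε : ℝ), 0 < ε → ∃ C : ℝ, ∀ T : ℝ, 1 ≤ T → moment k T ≤ C * T ^ ε

/-- the Dirichlet polynomial with the coefficients `b_1, ..., b_N` -/
noncomputable def D (N : ℕ) (b : ℕ → ℂ) (s : ℂ) : ℂ := ∑ n ∈ Finset.Icc 1 N, b n * (n : ℂ) ^ (-s)

/-- `b` are the coefficients of a mollifier of length `N ≤ T^B` -/
def Mollifier (B T : ℝ) (N : ℕ) (b : ℕ → ℂ) : Prop :=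
  1 ≤ N ∧ (N : ℝ) ≤ T ^ B ∧ b 1 = 1 ∧ ∀ n, ‖b n‖ ≤ n

/-- `G` is analytic with `|G| ≤ T^B` in `1/4 ≤ Re s ≤ 6`, `T₁ ≤ Im s ≤ T₂`, and `c ≤ |G| ≤ K` in its part `Re s ≥ 3` -/
def Mult (T B c K T₁ T₂ : ℝ) (G : ℂ → ℂ) : Prop :=
  (∀ s : ℂ, 1 / 4 ≤ s.re → s.re ≤ 6 → T₁ ≤ s.im → s.im ≤ T₂ → AnalyticAt ℂ G s ∧ ‖G s‖ ≤ T ^ B) ∧
  (∀ s : ℂ, 3 ≤ s.re → s.re ≤ 6 → T₁ ≤ s.im → s.im ≤ T₂ → c ≤ ‖G s‖ ∧ ‖G s‖ ≤ K)

theorem result :
    -- one moment of `ζ G`, of any order, controls the measure of the large values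
    (∀ ε B : ℝ, 0 < ε → ∃ δ C T₀ : ℝ, 0 < δ ∧ 0 < C ∧ 1 < T₀ ∧ ∀ T : ℝ, T₀ ≤ T →
      ∀ G : ℂ → ℂ, Mult T B (T ^ (-δ)) (T ^ δ) (T / 2) (3 * T) G → ∀ p : ℝ, 0 < p →
        volume.real {t : ℝ | T ≤ t ∧ t ≤ 2 * T ∧ t ^ ε ≤ ‖Z t‖} ≤
          T ^ (C - p * δ) * ∫ t in (T / 2)..(3 * T), ‖Z t * G (1 / 2 + t * Complex.I)‖ ^ p) ∧
    -- the Lindelöf hypothesis and mollified moments
    (Lindelof ↔ ∃ B : ℝ, ∀ η : ℝ, 0 < η → ∃ k : ℕ, 1 / η ≤ k ∧ ∃ T₀ : ℝ, ∀ T : ℝ, T₀ ≤ T →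
      ∃ (N : ℕ) (b : ℕ → ℂ), Mollifier B T N b ∧
        ∫ t in T..(2 * T), ‖Z t * D N b (1 / 2 + t * Complex.I)‖ ^ (2 * k) ≤ T ^ (η * k)) ∧
    -- moments and mollified moments
    (MomentsSmall ↔ ∃ B : ℝ, ∀ (k : ℕ) (ε : ℝ), 0 < ε → ∃ T₀ : ℝ, ∀ T : ℝ, T₀ ≤ T →
      ∃ (N : ℕ) (b : ℕ → ℂ), Mollifier B T N b ∧
        1 / T * ∫ t in T..(2 * T), ‖Z t * D N b (1 / 2 + t * Complex.I)‖ ^ (2 * k) ≤ T ^ ε) ∧
    -- general multipliers
    (∀ B K : ℝ, 0 < K → (∀ η : ℝ, 0 < η → ∃ k : ℕ, 1 / η ≤ k ∧ ∃ T₀ : ℝ, ∀ T : ℝ, T₀ ≤ T →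
      ∃ G : ℂ → ℂ, Mult T B (1 / K) K T (2 * T) G ∧
        ∫ t in T..(2 * T), ‖Z t * G (1 / 2 + t * Complex.I)‖ ^ (2 * k) ≤ T ^ (η * k)) →
      Lindelof ∧ MomentsSmall) ∧
    -- joint moments with Dirichlet L-functions
    (∀ (n : ℕ) (q : Fin n → ℕ) [∀ j, NeZero (q j)] (χ : (j : Fin n) → DirichletCharacter ℂ (q j)) (a : Fin n → ℂ),
      (∀ j, 0 ≤ (a j).re) →
      (∀ η : ℝ, 0 < η → ∃ k : ℕ, 1 / η ≤ k ∧ ∃ T₀ : ℝ, ∀ T : ℝ, T₀ ≤ T →
        ∫ t in T..(2 * T), ‖Z t * ∏ j, DirichletCharacter.LFunction (χ j) (1 / 2 + t * Complex.I + a j)‖ ^ (2 * k) ≤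
          T ^ (η * k)) →
      Lindelof ∧ MomentsSmall) ∧
    -- the inequality of Q2, for the moments of `ζ D`, with arbitrary constants and for a sequence of orders
    ((∃ B : ℝ, ∀ K : ℕ, ∃ k : ℕ, K ≤ k ∧ ∃ A T₀ : ℝ, ∀ T : ℝ, T₀ ≤ T → ∃ (N : ℕ) (b : ℕ → ℂ), Mollifier B T N b ∧
        ∫ t in T..(2 * T), ‖Z t * D N b (1 / 2 + t * Complex.I)‖ ^ (2 * k) ≤ A * T * Real.log T ^ (k ^ 2)) →
      ∀ k ε : ℝ, 0 < k → 0 < ε → ∃ C : ℝ, ∀ T : ℝ, 1 ≤ T → M k T ≤ C * T ^ (1 + ε)) := by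
  refine ⟨fun ε B hε => ?_, ?_, ?_, fun B K hK h => ?_, fun n q _ χ a ha h => ?_, fun h => ?_⟩
  · obtain ⟨δ, C, T₀, h1, h2, h3, h⟩ := Pool.Agent.U575.MU.zeta_measure ε B hε
    exact ⟨δ, C, T₀, h1, h2, h3, fun T hT G hG p hp => h T hT G hG.1 hG.2 p hp⟩
  · have h := Pool.Agent.U575.MU.LH_iff_moments
    unfold Mollifier
    simp only [and_assoc]
    exact h
  · have h := Pool.Agent.U575.MU.momSmall_iff
    unfold Mollifier
    simp only [and_assoc]
    exact h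
  · have h1 := Pool.Agent.U575.MU.LH_of_moments B K hK h
    exact ⟨h1, h1.momSmall⟩
  · have h1 := Pool.Agent.U575.MU.LH_of_joint_moments n q χ a ha h
    exact ⟨h1, h1.momSmall⟩
  · have hL : Lindelof := by
      obtain ⟨B, h⟩ := h
      have key : Lindelof ↔ ∃ B : ℝ, ∀ η : ℝ, 0 < η → ∃ k : ℕ, 1 / η ≤ k ∧ ∃ T₀ : ℝ, ∀ T : ℝ, T₀ ≤ T →
          ∃ (N : ℕ) (b : ℕ → ℂ), Mollifier B T N b ∧
            ∫ t in T..(2 * T), ‖Z t * D N b (1 / 2 + t * Complex.I)‖ ^ (2 * k) ≤ T ^ (η * k) := by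
        have h := Pool.Agent.U575.MU.LH_iff_moments
        unfold Mollifier
        simp only [and_assoc]
        exact h
      refine key.2 ⟨B, fun η hη => ?_⟩
      obtain ⟨k, hk, A, T₀, hT⟩ := h (⌈2 / η⌉₊ + 1)
      have hkR : 2 / η + 1 ≤ k := by
        have h1 : ((⌈2 / η⌉₊ + 1 : ℕ) : ℝ) ≤ k := by exact_mod_cast hk
        have h2 := Nat.le_ceil (2 / η)
        push_cast at h1
        linarith
      have h2η : 0 < 2 / η := by positivity
      have hηk : 2 ≤ η * k := by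
        have : η * (2 / η) = 2 := by field_simp
        nlinarith
      have hev : ∀ᶠ T : ℝ in atTop, A * T * Real.log T ^ (k ^ 2) ≤ T ^ (η * k) := by
        have hlog : (fun T : ℝ => Real.log T ^ (k ^ 2)) =o[atTop] fun T : ℝ => T ^ (1 / 2 : ℝ) := by
          have := isLittleO_log_rpow_rpow_atTop ((k ^ 2 : ℕ) : ℝ) (s := 1 / 2) (by norm_num)
          refine this.congr' ?_ (EventuallyEq.refl _ _)
          filter_upwards with T
          rw [Real.rpow_natCast]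
        filter_upwards [hlog.bound (c := 1 / (|A| + 1)) (by positivity), eventually_ge_atTop (1 : ℝ)] with T h3 hT1
        have hT0 : (0 : ℝ) < T := by linarith
        have hl0 : 0 ≤ Real.log T ^ (k ^ 2) := pow_nonneg (Real.log_nonneg hT1) _
        rw [Real.norm_of_nonneg hl0, Real.norm_of_nonneg (by positivity)] at h3
        have hA : A ≤ |A| + 1 := by linarith [le_abs_self A]
        calc A * T * Real.log T ^ (k ^ 2) ≤ (|A| + 1) * T * (1 / (|A| + 1) * T ^ (1 / 2 : ℝ)) := by gcongr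
          _ = T * T ^ (1 / 2 : ℝ) := by field_simp
          _ = T ^ (3 / 2 : ℝ) := by
              nth_rewrite 1 [← Real.rpow_one T]
              rw [← Real.rpow_add hT0]
              norm_num
          _ ≤ T ^ (η * k) := Real.rpow_le_rpow_of_exponent_le hT1 (by linarith)
      obtain ⟨T₁, hT₁⟩ := eventually_atTop.1 hev
      refine ⟨k, ?_, max T₀ T₁, fun T hTT => ?_⟩
      · have : 1 / η ≤ 2 / η := by gcongr; norm_num
        linarith
      · obtain ⟨N, b, hM, hI⟩ := hT T ((le_max_left _ _).trans hTT)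
        exact ⟨N, b, hM, hI.trans (hT₁ T ((le_max_right _ _).trans hTT))⟩
    intro k ε hk hε
    obtain ⟨C, hC⟩ := hL (ε / (2 * k)) (by positivity)
    have hC0 : 0 ≤ C := by
      have := (norm_nonneg _).trans (hC 0)
      simpa using this
    refine ⟨C ^ (2 * k) * 2 ^ ε, fun T hT => ?_⟩
    have hT0 : (0 : ℝ) < T := by linarith
    have hb : ∀ t ∈ Set.Icc (0 : ℝ) T, ‖Z t‖ ^ (2 * k) ≤ C ^ (2 * k) * 2 ^ ε * T ^ ε := by
      intro t ht
      have h1 : ‖Z t‖ ≤ C * (2 * T) ^ (ε / (2 * k)) := by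
        refine (hC t).trans (mul_le_mul_of_nonneg_left ?_ hC0)
        refine Real.rpow_le_rpow (by positivity) ?_ (by positivity)
        rw [abs_of_nonneg ht.1]
        linarith [ht.2]
      calc ‖Z t‖ ^ (2 * k) ≤ (C * (2 * T) ^ (ε / (2 * k))) ^ (2 * k) :=
            Real.rpow_le_rpow (norm_nonneg _) h1 (by positivity)
        _ = C ^ (2 * k) * ((2 * T) ^ (ε / (2 * k))) ^ (2 * k) := Real.mul_rpow hC0 (by positivity)
        _ = C ^ (2 * k) * (2 * T) ^ ε := by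
            rw [← Real.rpow_mul (by positivity)]
            congr 2
            field_simp
        _ = C ^ (2 * k) * 2 ^ ε * T ^ ε := by
            rw [Real.mul_rpow (by norm_num) hT0.le]
            ring
    have hcont : Continuous fun t : ℝ => ‖Z t‖ ^ (2 * k) := by
      refine Continuous.rpow_const ?_ fun t => Or.inr (by positivity)
      refine continuous_norm.comp ?_
      refine continuous_iff_continuousAt.2 fun t => ?_
      have h1 : (1 / 2 + (t : ℂ) * Complex.I) ≠ 1 := by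
        intro h
        have := congrArg Complex.re h
        norm_num at this
      exact (differentiableAt_riemannZeta h1).continuousAt.comp (f := fun t : ℝ => 1 / 2 + (t : ℂ) * Complex.I)
        (by fun_prop)
    unfold M
    calc ∫ t in (0 : ℝ)..T, ‖Z t‖ ^ (2 * k) ≤ ∫ _t in (0 : ℝ)..T, C ^ (2 * k) * 2 ^ ε * T ^ ε :=
          intervalIntegral.integral_mono_on hT0.le (hcont.intervalIntegrable _ _) (by simp) hb
      _ = C ^ (2 * k) * 2 ^ ε * T ^ (1 + ε) := by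
          rw [intervalIntegral.integral_const, smul_eq_mul, Real.rpow_add hT0, Real.rpow_one]
          ring

end Pool.Agent.Results.MP_3d0d30_nt.MollifiedMoments
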