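import Pool.Agent.Results.MP_3d0d30_nt.ReductionsAndLargeValues
import Pool.Agent.N879.GD.Cru

/-!
# MP_3d0d30_nt: only the orders up to `√(2 log T / log log T) + 1` matter

`M_k(T) = ∫_0^T |ζ(1/2 + it)|^{2k} dt`, `Z t = |ζ(1/2 + it)|`, `L = log T`, `l = log log T`; the pair
`(k, T)` is good if `M_k(T) ≤ T L^{k²}` (the inequality of Q2).

(1) One good order `j` bounds `Z` on `[0, T]` by `2 exp ((L + 4) / j + j l / 2)`, and makes all
orders `k ≥ j` with `2 (L + 4) / j + 7 / 5 ≤ k l` good.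
(2) Above `√(2 L / l) + 1` one good order makes all larger orders good.
(3) Q2 is equivalent to its part with `k ≤ √(2 L / l) + 1`.
(4) For given `T` about `√(2 L)` orders decide.
(5) At the order `√(L / l)` Q2 is a bound `exp (b √(L l))` for the zeta function.
-/

set_option autoImplicit false

namespace Pool.Agent.Results.MP_3d0d30_nt.OrdersThatMatter

open Complex MeasureTheory Set Filter
open Pool.Agent.Results.MP_3d0d30_nt.ReductionsAndLargeValues

/-- a linear bound near the critical line -/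
lemma zeta_disc {u : ℝ} (hu : 0 ≤ u) {z : ℂ} (hz : ‖z - (1 / 2 + I * u)‖ ≤ 1 / 8) :
    z ≠ 1 ∧ ‖riemannZeta z‖ ≤ 112 * (1 + u) := by
  obtain ⟨hz1, h0⟩ := Pool.Agent.N879.GD.Cru.zeta_disc hu hz
  refine ⟨hz1, ?_⟩
  rcases le_total u 1 with h | h
  · nlinarith
  · have hu0 : 0 < u := by linarith
    have h1 := (abs_le.1 ((abs_re_le_norm _).trans hz))
    rw [sub_re, Pool.Agent.N879.GD.Cru.re_line] at h1
    have h2 := Pool.Agent.H295R2.Zs_norm_le (s := z) (by linarith [h1.1])
    rw [← Pool.Agent.H295R2.Zs_eq hz1, norm_mul] at h2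
    have him : (1 / 2 + I * u : ℂ).im = u := by simp
    have h3 : 7 / 8 * u ≤ ‖z - 1‖ := by
      have h4 := (abs_le.1 ((abs_im_le_norm _).trans hz)).1
      rw [sub_im, him] at h4
      have h5 := (le_abs_self _).trans (abs_im_le_norm (z - 1))
      rw [sub_im, one_im, sub_zero] at h5
      linarith
    have h5 : ‖z‖ ≤ 5 / 8 + u := by
      have h6 : z = (z - (1 / 2 + I * u)) + (1 / 2 + I * u) := by ring
      rw [h6]
      refine (norm_add_le _ _).trans ?_
      have h7 := Pool.Agent.N879.GD.Cru.norm_line u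
      rw [abs_of_nonneg hu] at h7
      linarith
    have h8 : 5 * (‖z‖ + 1) ^ 2 ≤ 5 * (21 / 8 * u) ^ 2 := by
      have h9 : ‖z‖ + 1 ≤ 21 / 8 * u := by linarith
      have h10 : 0 ≤ ‖z‖ + 1 := by positivity
      gcongr
    have h11 : 7 / 8 * u * ‖riemannZeta z‖ ≤ 5 * (21 / 8 * u) ^ 2 := by
      calc 7 / 8 * u * ‖riemannZeta z‖ ≤ ‖z - 1‖ * ‖riemannZeta z‖ := by gcongr
        _ ≤ _ := h2.trans h8
    have h12 : 7 / 8 * ‖riemannZeta z‖ ≤ 5 * (21 / 8) ^ 2 * u := by
      refine le_of_mul_le_mul_left ?_ hu0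
      calc u * (7 / 8 * ‖riemannZeta z‖) = 7 / 8 * u * ‖riemannZeta z‖ := by ring
        _ ≤ 5 * (21 / 8 * u) ^ 2 := h11
        _ = u * (5 * (21 / 8) ^ 2 * u) := by ring
    linarith

lemma deriv_zeta {u : ℝ} (hu : 0 ≤ u) : ‖deriv riemannZeta (1 / 2 + I * u)‖ ≤ 896 * (1 + u) := by
  have h1 : ‖deriv riemannZeta (1 / 2 + I * u)‖ ≤ (112 * (1 + u)) / (1 / 8) := by
    refine norm_deriv_le_of_forall_mem_sphere_norm_le (by norm_num) ?_ ?_
    · refine DifferentiableOn.diffContOnCl fun z hz => ?_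
      rw [closure_ball _ (by norm_num), Metric.mem_closedBall, dist_eq_norm] at hz
      exact (differentiableAt_riemannZeta (zeta_disc hu hz).1).differentiableWithinAt
    · intro z hz
      rw [mem_sphere_iff_norm] at hz
      exact (zeta_disc hu hz.le).2
  linarith

/-- the zeta function varies slowly -/
lemma Z_slow {T t u : ℝ} (ht : t ∈ Icc (0:ℝ) T) (hu : u ∈ Icc (0:ℝ) T) :
    Z t - Z u ≤ 896 * (1 + T) * |u - t| := by
  have h1 := Convex.norm_image_sub_le_of_norm_deriv_le (𝕜 := ℝ)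
    (f := fun x : ℝ => riemannZeta (1 / 2 + I * x))
    (C := 896 * (1 + T)) (s := Icc 0 T) (x := t) (y := u)
    (fun x _ => (Pool.Agent.N879.GD.Cru.hasDeriv x).differentiableAt) (fun x hx => by
      rw [(Pool.Agent.N879.GD.Cru.hasDeriv x).deriv, norm_mul, norm_I, mul_one]
      refine (deriv_zeta hx.1).trans ?_
      have := hx.1
      have := hx.2
      gcongr) (convex_Icc _ _) ht hu
  rw [Real.norm_eq_abs] at h1
  have e : ∀ x : ℝ, Z x = ‖riemannZeta (1 / 2 + I * x)‖ := by
    intro x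
    unfold Z
    rw [mul_comm]
  rw [e, e]
  refine le_trans ?_ h1
  rw [norm_sub_rev]
  exact norm_sub_norm_le _ _

lemma log_const : Real.log 1794 ≤ 8 := by
  rw [Real.log_le_iff_le_exp (by norm_num)]
  have h1 : (2.7182818283 : ℝ) ^ 8 ≤ Real.exp 1 ^ 8 :=
    pow_le_pow_left₀ (by norm_num) Real.exp_one_gt_d9.le 8
  rw [← Real.exp_nat_mul] at h1
  refine le_trans ?_ (h1.trans (le_of_eq (by norm_num)))
  norm_num

/-- one moment bounds the zeta function -/
lemma point {k T t : ℝ} (hT : 1000 ≤ T) (hk : 0 < k) (hg : Good k T) (ht : t ∈ Icc (0:ℝ) T) :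
    Z t ≤ 2 * Real.exp ((Real.log T + 4) / k + k / 2 * Real.log (Real.log T)) := by
  have hl := log_ge hT
  have hl0 : 0 < Real.log T := by linarith
  have hll := loglog_ge hT
  have hT0 : 0 < T := by linarith
  rcases le_or_gt (Z t) 1 with h | h
  · have : (1:ℝ) ≤ Real.exp ((Real.log T + 4) / k + k / 2 * Real.log (Real.log T)) :=
      Real.one_le_exp (by positivity)
    linarith
  set D : ℝ := 896 * (1 + T) with hD
  have hD1 : 1 ≤ D := by rw [hD]; linarith
  have hD0 : 0 < D := by linarith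
  set δ : ℝ := 1 / (2 * D) with hδ
  have hδ0 : 0 < δ := by positivity
  have hδ1 : δ ≤ 1 := by
    rw [hδ, div_le_one (by positivity)]
    linarith
  -- an interval of length `δ` near `t`
  obtain ⟨a, ha0, haT, hau⟩ : ∃ a : ℝ, 0 ≤ a ∧ a + δ ≤ T ∧ ∀ u ∈ Icc a (a + δ), |u - t| ≤ δ := by
    rcases le_or_gt (t + δ) T with h1 | h1
    · refine ⟨t, ht.1, h1, fun u hu => ?_⟩
      rw [abs_le]
      constructor <;> linarith [hu.1, hu.2]
    · refine ⟨t - δ, by linarith, by linarith [ht.2], fun u hu => ?_⟩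
      rw [abs_le]
      constructor <;> linarith [hu.1, hu.2]
  have hlow : ∀ u ∈ Icc a (a + δ), Z t / 2 ≤ Z u := by
    intro u hu
    have h1 := Z_slow (T := T) (t := t) (u := u) ht ⟨ha0.trans hu.1, hu.2.trans haT⟩
    rw [← hD] at h1
    have h2 : D * |u - t| ≤ D * δ := mul_le_mul_of_nonneg_left (hau u hu) hD0.le
    have h3 : D * δ = 1 / 2 := by
      rw [hδ]
      field_simp
    linarith
  have hc : Continuous fun u : ℝ => Z u ^ (2 * k) :=
    Z_cont.rpow_const fun u => Or.inr (by positivity)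
  have h1 : δ * (Z t / 2) ^ (2 * k) ≤ M k T := by
    have h2 : ∫ u in a..(a + δ), (Z t / 2) ^ (2 * k) ≤ ∫ u in a..(a + δ), Z u ^ (2 * k) := by
      refine intervalIntegral.integral_mono_on (by linarith) (by simp) (hc.intervalIntegrable _ _)
        fun u hu => ?_
      have := hlow u hu
      exact Real.rpow_le_rpow (by linarith) this (by positivity)
    rw [intervalIntegral.integral_const, smul_eq_mul, add_sub_cancel_left] at h2
    refine h2.trans ?_
    unfold M
    refine intervalIntegral.integral_mono_interval ha0 (by linarith) haT ?_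
      (hc.intervalIntegrable _ _)
    exact Eventually.of_forall fun u => Real.rpow_nonneg (Z_nonneg u) _
  have h2 : (Z t / 2) ^ (2 * k) ≤ 1794 * T ^ (2:ℝ) * Real.log T ^ (k ^ 2) := by
    have h3 := h1.trans hg
    rw [hδ, one_div, inv_mul_le_iff₀ (by positivity)] at h3
    refine h3.trans ?_
    rw [← mul_assoc]
    apply mul_le_mul_of_nonneg_right _ (Real.rpow_nonneg hl0.le _)
    have e : T ^ (2:ℝ) = T ^ 2 := by norm_cast
    rw [e, hD]
    nlinarith
  have h3 : 2 * k * Real.log (Z t / 2) ≤ 8 + 2 * Real.log T + k ^ 2 * Real.log (Real.log T) := by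
    have hz : 0 < Z t / 2 := by linarith
    have h4 := Real.log_le_log (Real.rpow_pos_of_pos hz _) h2
    rw [Real.log_rpow hz, Real.log_mul (mul_pos (by norm_num) (Real.rpow_pos_of_pos hT0 _)).ne'
      (Real.rpow_pos_of_pos hl0 _).ne', Real.log_mul (by norm_num)
      (Real.rpow_pos_of_pos hT0 _).ne', Real.log_rpow hT0, Real.log_rpow hl0] at h4
    linarith [log_const]
  have h4 : Real.log (Z t / 2) ≤ (Real.log T + 4) / k + k / 2 * Real.log (Real.log T) := by
    have h5 : Real.log (Z t / 2) ≤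
        (8 + 2 * Real.log T + k ^ 2 * Real.log (Real.log T)) / (2 * k) := by
      rw [le_div_iff₀ (by positivity)]
      linarith
    refine h5.trans (le_of_eq ?_)
    field_simp
    ring
  have h5 := (Real.log_le_iff_le_exp (by linarith)).1 h4
  linarith

lemma two_log_two : 2 * Real.log 2 ≤ 7 / 5 := by
  have := Real.log_two_lt_d9
  linarith

/-- one good order makes larger orders good -/
lemma from_one {T j k : ℝ} (hT : 1000 ≤ T) (hj : 0 < j) (hg : Good j T) (hjk : j ≤ k)
    (hk : 2 * (Real.log T + 4) / j + 7 / 5 ≤ k * Real.log (Real.log T)) : Good k T := by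
  have hl := log_ge hT
  have hl0 : 0 < Real.log T := by linarith
  have hll := loglog_ge hT
  have hll0 : 0 < Real.log (Real.log T) := by linarith
  refine reflect (κ := j / 2 + (Real.log T + 4) / (j * Real.log (Real.log T)) +
    Real.log 2 / Real.log (Real.log T)) (j := j) hT ?_ hj.le hg hjk ?_
  · intro t ht
    refine (point hT hj hg ht).trans (le_of_eq ?_)
    rw [Real.rpow_def_of_pos hl0]
    have e : Real.log (Real.log T) * (j / 2 + (Real.log T + 4) / (j * Real.log (Real.log T)) +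
        Real.log 2 / Real.log (Real.log T)) =
        Real.log 2 + ((Real.log T + 4) / j + j / 2 * Real.log (Real.log T)) := by
      field_simp
      ring
    rw [e, Real.exp_add (Real.log 2), Real.exp_log (by norm_num)]
  · have e : 2 * (j / 2 + (Real.log T + 4) / (j * Real.log (Real.log T)) +
        Real.log 2 / Real.log (Real.log T)) - j =
        (2 * (Real.log T + 4) / j + 2 * Real.log 2) / Real.log (Real.log T) := by
      field_simp
      ring
    rw [e, div_le_iff₀ hll0]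
    linarith [two_log_two]

/-- the critical order -/
noncomputable def K (T : ℝ) : ℝ := Real.sqrt (2 * Real.log T / Real.log (Real.log T)) + 1

lemma K_ge {T : ℝ} (hT : 1000 ≤ T) : 2 ≤ K T := by
  have hl := log_ge hT
  have hll := loglog_ge hT
  have h1 : Real.log (Real.log T) ≤ Real.log T := by
    have := Real.log_le_sub_one_of_pos (show 0 < Real.log T by linarith)
    linarith
  have h2 : (1:ℝ) ≤ Real.sqrt (2 * Real.log T / Real.log (Real.log T)) := by
    rw [Real.one_le_sqrt, one_le_div (by linarith)]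
    linarith
  unfold K
  linarith

lemma big_logs {T : ℝ} (hT : 5 * 10 ^ 12 < T) :
    29 ≤ Real.log T ∧ 33 / 10 ≤ Real.log (Real.log T) := by
  have hT0 : 0 < T := by linarith
  have h1 : (29:ℝ) ≤ Real.log T := by
    rw [Real.le_log_iff_exp_le hT0]
    have h2 : Real.exp 1 ^ 29 ≤ (2.7182818286 : ℝ) ^ 29 :=
      pow_le_pow_left₀ (Real.exp_pos _).le Real.exp_one_lt_d9.le 29
    rw [← Real.exp_nat_mul] at h2
    refine le_trans (le_of_eq (by norm_num)) (h2.trans ?_)
    refine le_trans ?_ hT.le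
    norm_num
  refine ⟨h1, ?_⟩
  rw [Real.le_log_iff_exp_le (by linarith)]
  refine le_trans ?_ h1
  have h3 : Real.exp (33 / 10) ^ 10 ≤ (29:ℝ) ^ 10 := by
    rw [← Real.exp_nat_mul]
    have h2 : Real.exp 1 ^ 33 ≤ (2.7182818286 : ℝ) ^ 33 :=
      pow_le_pow_left₀ (Real.exp_pos _).le Real.exp_one_lt_d9.le 33
    rw [← Real.exp_nat_mul] at h2
    refine le_trans (le_of_eq (by norm_num)) (h2.trans ?_)
    norm_num
  exact le_of_pow_le_pow_left₀ (by norm_num) (by norm_num) h3

/-- numbers -/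
lemma K_ineq {T j : ℝ} (hT : 5 * 10 ^ 12 < T) (hj : K T ≤ j) :
    2 * (Real.log T + 4) + 7 / 5 * j ≤ j * (j * Real.log (Real.log T)) := by
  obtain ⟨hl, hll⟩ := big_logs hT
  unfold K at hj
  set L := Real.log T with hL
  set l := Real.log L with hl'
  set s := Real.sqrt (2 * L / l) with hs
  have hl0 : 0 < l := by linarith
  have hs0 : 0 ≤ s := Real.sqrt_nonneg _
  have hs2 : s ^ 2 * l = 2 * L := by
    rw [hs, Real.sq_sqrt (by positivity)]
    field_simp
  have hp : 13 ≤ s * l := by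
    have h1 : (s * l) ^ 2 = 2 * L * l := by
      calc (s * l) ^ 2 = s ^ 2 * l * l := by ring
        _ = _ := by rw [hs2]
    have h2 : (13:ℝ) ^ 2 ≤ (s * l) ^ 2 := by
      rw [h1]
      nlinarith
    exact le_of_pow_le_pow_left₀ (by norm_num) (by positivity) h2
  have hsl : 33 / 10 * s ≤ s * l := by nlinarith
  have h3 : (s + 1) * ((s + 1) * l) ≤ j * ((s + 1) * l) := by
    apply mul_le_mul_of_nonneg_right hj
    positivity
  have h4 : j * ((s + 1) * l) ≤ j * (j * l) := by
    apply mul_le_mul_of_nonneg_left _ (by linarith)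
    nlinarith
  -- `f (j) - f (s + 1) ≥ 0`
  have h5 : (j - (s + 1)) * ((s + 1) * l - 7 / 5) ≥ 0 := by
    apply mul_nonneg (by linarith)
    nlinarith
  nlinarith

/-- above the critical order one good order makes all larger orders good -/
theorem above {T j k : ℝ} (hT : 1000 ≤ T) (hj : K T ≤ j) (hg : Good j T) (hjk : j ≤ k) :
    Good k T := by
  have hK := K_ge hT
  rcases le_or_gt T (5 * 10 ^ 12) with h | h
  · exact small_range k T (by linarith) hT h
  · have hj0 : 0 < j := by linarith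
    refine from_one hT hj0 hg hjk ?_
    have hll := loglog_ge hT
    have h1 := K_ineq h hj
    have h2 : 2 * (Real.log T + 4) / j + 7 / 5 ≤ j * Real.log (Real.log T) := by
      rw [div_add' _ _ _ hj0.ne', div_le_iff₀ hj0]
      linarith
    refine h2.trans ?_
    apply mul_le_mul_of_nonneg_right hjk (by linarith)

/-- Q2 is equivalent to its part with `k ≤ K(T)` -/
theorem Q2_iff : Q2 ↔ ∀ k T : ℝ, 2 + 7 / (5 * Real.log T) < k → 5 * 10 ^ 12 < T → k ≤ K T →
    Real.log T ^ k ≤ 4 * (T / (2 * Real.pi)) ^ (1 / 4 : ℝ) + 1 → Good k T := by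
  obtain ⟨-, -, -, -, -, hQ, -, -, -⟩ :=
    Pool.Agent.Results.MP_3d0d30_nt.ReductionsAndLargeValues.result
  rw [hQ]
  constructor
  · intro h k T h1 h2 _ h4
    exact h k T h1 h2 h4
  · intro h k T h1 h2 h4
    rcases le_or_gt k (K T) with h3 | h3
    · exact h k T h1 h2 h3 h4
    · obtain ⟨hl, hll⟩ := big_logs h2
      have hl0 : 0 < Real.log T := by linarith
      have h5 : Real.log (Real.log T) ≤ Real.log T := by
        have := Real.log_le_sub_one_of_pos hl0
        linarith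
      have h6 : (7 / 5 : ℝ) ≤ Real.sqrt (2 * Real.log T / Real.log (Real.log T)) := by
        apply Real.le_sqrt_of_sq_le
        rw [le_div_iff₀ (by linarith)]
        nlinarith
      have hK : Good (K T) T := by
        refine h (K T) T ?_ h2 le_rfl ?_
        · have h7 : 7 / (5 * Real.log T) ≤ 7 / (5 * 29) := by gcongr
          unfold K
          linarith
        · refine le_trans ?_ h4
          exact Real.rpow_le_rpow_of_exponent_le (by linarith) h3.le
      exact above (by linarith) le_rfl hK h3.le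

/-- for given `T` about `√(2 log T)` orders decide -/
theorem finite {T Δ : ℝ} (hT : 10 ^ 8 ≤ T) (hΔ : 0 < Δ) (hΔ2 : Δ ^ 2 * Real.log (Real.log T) ≤ 1)
    (h : ∀ n : ℕ, 1 ≤ n → 2 + n * Δ ≤ K T + 2 * Δ →
      M (2 + n * Δ) T ≤ 7 / 9 * (T * Real.log T ^ ((2 + n * Δ) ^ 2))) :
    ∀ k : ℝ, 2 ≤ k → Good k T := by
  obtain ⟨-, -, -, -, -, -, hF, -, -⟩ :=
    Pool.Agent.Results.MP_3d0d30_nt.ReductionsAndLargeValues.result
  have hT3 : 1000 ≤ T := by linarith
  have hT0 : 0 < T := by linarith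
  rcases le_or_gt T (5 * 10 ^ 12) with hs | hs
  · exact fun k hk => small_range k T hk hT3 hs
  obtain ⟨hl, hll⟩ := big_logs hs
  have hl0 : 0 < Real.log T := by linarith
  have hK := K_ge hT3
  -- the first order above `K(T)`
  obtain ⟨N, hN1, hN2, hN3⟩ : ∃ N : ℕ, 1 ≤ N ∧ K T ≤ 2 + N * Δ ∧ 2 + N * Δ ≤ K T + Δ := by
    refine ⟨max ⌈(K T - 2) / Δ⌉₊ 1, le_max_right _ _, ?_, ?_⟩
    · have h1 : (K T - 2) / Δ ≤ (⌈(K T - 2) / Δ⌉₊ : ℝ) := Nat.le_ceil _
      have h2 : (⌈(K T - 2) / Δ⌉₊ : ℝ) ≤ ((max ⌈(K T - 2) / Δ⌉₊ 1 : ℕ) : ℝ) := by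
        exact_mod_cast le_max_left _ _
      have h3 := (div_le_iff₀ hΔ).1 (h1.trans h2)
      linarith
    · rcases le_total ⌈(K T - 2) / Δ⌉₊ 1 with h1 | h1
      · rw [max_eq_right h1]
        push_cast
        linarith
      · rw [max_eq_left h1]
        have h2 : (⌈(K T - 2) / Δ⌉₊ : ℝ) < (K T - 2) / Δ + 1 :=
          Nat.ceil_lt_add_one (div_nonneg (by linarith) hΔ.le)
        have h3 : (⌈(K T - 2) / Δ⌉₊ : ℝ) * Δ < ((K T - 2) / Δ + 1) * Δ :=
          mul_lt_mul_of_pos_right h2 hΔ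
        have h4 : ((K T - 2) / Δ + 1) * Δ = K T - 2 + Δ := by
          field_simp
        linarith
  have hj0 : 0 < 2 + (N:ℝ) * Δ := by positivity
  have hg : Good (2 + (N:ℝ) * Δ) T := by
    refine (h N hN1 (by linarith)).trans ?_
    have : 0 ≤ T * Real.log T ^ ((2 + (N:ℝ) * Δ) ^ 2) :=
      mul_nonneg hT0.le (Real.rpow_nonneg hl0.le _)
    linarith
  refine hF T hT (Real.log T ^ (2 + (N:ℝ) * Δ)) Δ ?_ hΔ hΔ2 ?_
  · intro t ht
    refine (point hT3 hj0 hg ht).trans ?_
    rw [Real.rpow_def_of_pos hl0]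
    have h1 := K_ineq hs hN2
    have h2 : 2 * (Real.log T + 4) / (2 + (N:ℝ) * Δ) + 7 / 5 ≤
        (2 + (N:ℝ) * Δ) * Real.log (Real.log T) := by
      rw [div_add' _ _ _ hj0.ne', div_le_iff₀ hj0]
      linarith
    have h3 : 2 * (Real.log T + 4) / (2 + (N:ℝ) * Δ) =
        2 * ((Real.log T + 4) / (2 + (N:ℝ) * Δ)) := by ring
    rw [h3] at h2
    calc 2 * Real.exp ((Real.log T + 4) / (2 + (N:ℝ) * Δ) +
          (2 + (N:ℝ) * Δ) / 2 * Real.log (Real.log T))
        = Real.exp (Real.log 2 + ((Real.log T + 4) / (2 + (N:ℝ) * Δ) +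
          (2 + (N:ℝ) * Δ) / 2 * Real.log (Real.log T))) := by
          rw [Real.exp_add (Real.log 2), Real.exp_log (by norm_num)]
      _ ≤ _ := by
          apply Real.exp_le_exp.2
          linarith [two_log_two]
  · intro n hn h1
    refine h n hn ?_
    rw [← Real.rpow_add hl0, Real.rpow_le_rpow_left_iff (by linarith)] at h1
    linarith

/-- the growth bound `exp (b √(log t log log t))` -/
def Growth (b : ℝ) : Prop := ∃ t₀ : ℝ, ∀ t : ℝ, t₀ ≤ t →
  Z t ≤ Real.exp (b * Real.sqrt (Real.log t * Real.log (Real.log t)))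

lemma sqrt_id {L l : ℝ} (hl : 0 < l) : Real.sqrt (L * l) = l * Real.sqrt (L / l) := by
  rw [show L * l = l ^ 2 * (L / l) by field_simp, Real.sqrt_mul (by positivity),
    Real.sqrt_sq hl.le]

theorem of_growth {b : ℝ} (hb : 0 < b) (h : Growth b) : ∃ T₀ : ℝ, ∀ T : ℝ, T₀ ≤ T →
    ∀ k : ℝ, 2 ≤ k → 2 * b * Real.sqrt (Real.log T / Real.log (Real.log T)) ≤ k + 2 →
      Good k T := by
  obtain ⟨t₀, h⟩ := h
  obtain ⟨C, hC⟩ := (isCompact_Icc (a := (0:ℝ)) (b := max t₀ 1000)).exists_bound_of_continuousOn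
    Z_cont.continuousOn
  have hlim : Tendsto (fun T : ℝ => Real.exp (b * Real.sqrt (Real.log T))) atTop atTop :=
    Real.tendsto_exp_atTop.comp ((Real.tendsto_sqrt_atTop.comp
      Real.tendsto_log_atTop).const_mul_atTop hb)
  obtain ⟨T₁, hT₁⟩ := eventually_atTop.1 (hlim.eventually_ge_atTop C)
  refine ⟨max T₁ 1000, fun T hT k hk hkT => ?_⟩
  have h1 : T₁ ≤ T := (le_max_left _ _).trans hT
  have h2 : 1000 ≤ T := (le_max_right _ _).trans hT
  have hl := log_ge h2
  have hll := loglog_ge h2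
  have hl0 : 0 < Real.log T := by linarith
  have hll0 : 0 < Real.log (Real.log T) := by linarith
  refine reflect (κ := b * Real.sqrt (Real.log T / Real.log (Real.log T))) (j := 2) h2 ?_
    (by norm_num) (good_two T h2) hk (by linarith)
  intro t ht
  have e : Real.log T ^ (b * Real.sqrt (Real.log T / Real.log (Real.log T))) =
      Real.exp (b * Real.sqrt (Real.log T * Real.log (Real.log T))) := by
    rw [Real.rpow_def_of_pos hl0, sqrt_id hll0]
    congr 1
    ring
  rw [e]
  rcases le_total t (max t₀ 1000) with h3 | h3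
  · have h4 := hC t ⟨ht.1, h3⟩
    rw [Real.norm_of_nonneg (Z_nonneg t)] at h4
    refine (h4.trans (hT₁ T h1)).trans ?_
    apply Real.exp_le_exp.2
    apply mul_le_mul_of_nonneg_left _ hb.le
    apply Real.sqrt_le_sqrt
    nlinarith
  · have h4 : t₀ ≤ t := (le_max_left _ _).trans h3
    have h5 : 1000 ≤ t := (le_max_right _ _).trans h3
    refine (h t h4).trans ?_
    apply Real.exp_le_exp.2
    apply mul_le_mul_of_nonneg_left _ hb.le
    apply Real.sqrt_le_sqrt
    have h6 : Real.log t ≤ Real.log T := Real.log_le_log (by linarith) ht.2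
    have h7 : Real.log (Real.log t) ≤ Real.log (Real.log T) :=
      Real.log_le_log (by linarith [log_ge h5]) h6
    have h8 := loglog_ge h5
    exact mul_le_mul h6 h7 (by linarith) hl0.le

theorem growth_of {κ ε : ℝ} (hκ : 0 < κ) (hε : 0 < ε)
    (h : ∃ T₀ : ℝ, ∀ T : ℝ, T₀ ≤ T →
      Good (κ * Real.sqrt (Real.log T / Real.log (Real.log T))) T) :
    Growth (κ / 2 + 1 / κ + ε) := by
  obtain ⟨T₀, h⟩ := h
  have hlim : Tendsto (fun T : ℝ => ε * Real.sqrt (Real.log T)) atTop atTop :=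
    (Real.tendsto_sqrt_atTop.comp Real.tendsto_log_atTop).const_mul_atTop hε
  obtain ⟨T₁, hT₁⟩ := eventually_atTop.1 (hlim.eventually_ge_atTop (Real.log 2 + 4 / κ))
  refine ⟨max (max T₀ T₁) 1000, fun t ht => ?_⟩
  have h1 : T₀ ≤ t := (le_max_left _ _).trans ((le_max_left _ _).trans ht)
  have h2 : T₁ ≤ t := (le_max_right _ _).trans ((le_max_left _ _).trans ht)
  have h3 : 1000 ≤ t := (le_max_right _ _).trans ht
  have h4 := hT₁ t h2
  have hg := h t h1
  have hl := log_ge h3
  have hll := loglog_ge h3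
  set L := Real.log t with hL
  set l := Real.log L with hl'
  have hl0 : 0 < L := by linarith
  have hll0 : 0 < l := by linarith
  have hle : l ≤ L := by
    have := Real.log_le_sub_one_of_pos hl0
    linarith
  set r := Real.sqrt (L / l) with hr
  have hr1 : 1 ≤ r := by
    rw [hr, Real.one_le_sqrt, one_le_div hll0]
    exact hle
  have hr0 : 0 < r := by linarith
  have hr2 : r ^ 2 * l = L := by
    rw [hr, Real.sq_sqrt (by positivity)]
    field_simp
  have hq : Real.sqrt (L * l) = l * r := sqrt_id hll0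
  have hqs : Real.sqrt L ≤ Real.sqrt (L * l) := by
    apply Real.sqrt_le_sqrt
    nlinarith
  have h5 := point h3 (k := κ * r) (by positivity) hg (t := t) ⟨by linarith, le_rfl⟩
  rw [← hL, ← hl'] at h5
  refine h5.trans ?_
  rw [hq] at hqs ⊢
  have e1 : L / (κ * r) = l * r / κ := by
    rw [← hr2]
    field_simp
  have e2 : 4 / (κ * r) ≤ 4 / κ := by
    apply div_le_div_of_nonneg_left (by norm_num) hκ
    nlinarith
  have e3 : (L + 4) / (κ * r) = L / (κ * r) + 4 / (κ * r) := add_div _ _ _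
  have e4 : ε * Real.sqrt L ≤ ε * (l * r) := mul_le_mul_of_nonneg_left hqs hε.le
  calc 2 * Real.exp ((L + 4) / (κ * r) + κ * r / 2 * l)
      = Real.exp (Real.log 2 + ((L + 4) / (κ * r) + κ * r / 2 * l)) := by
        rw [Real.exp_add (Real.log 2), Real.exp_log (by norm_num)]
    _ ≤ _ := by
        apply Real.exp_le_exp.2
        rw [e3, e1]
        have e5 : (κ / 2 + 1 / κ + ε) * (l * r) = κ * r / 2 * l + l * r / κ + ε * (l * r) := by
          field_simp
        rw [e5]
        linarith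

/-- **Only the orders up to `K(T) = √(2 log T / log log T) + 1` matter.** -/
theorem result :
    -- (1) one good order
    (∀ T : ℝ, 1000 ≤ T → ∀ j : ℝ, 0 < j → Good j T →
      (∀ t ∈ Icc (0:ℝ) T,
        Z t ≤ 2 * Real.exp ((Real.log T + 4) / j + j / 2 * Real.log (Real.log T))) ∧
      ∀ k : ℝ, j ≤ k → 2 * (Real.log T + 4) / j + 7 / 5 ≤ k * Real.log (Real.log T) →
        Good k T) ∧
    -- (2) above the critical order
    (∀ T : ℝ, 1000 ≤ T → ∀ j : ℝ, K T ≤ j → Good j T → ∀ k : ℝ, j ≤ k → Good k T) ∧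
    -- (3) Q2
    (Q2 ↔ ∀ k T : ℝ, 2 + 7 / (5 * Real.log T) < k → 5 * 10 ^ 12 < T → k ≤ K T →
      Real.log T ^ k ≤ 4 * (T / (2 * Real.pi)) ^ (1 / 4 : ℝ) + 1 → Good k T) ∧
    -- (4) finitely many orders
    (∀ T Δ : ℝ, 10 ^ 8 ≤ T → 0 < Δ → Δ ^ 2 * Real.log (Real.log T) ≤ 1 →
      (∀ n : ℕ, 1 ≤ n → 2 + n * Δ ≤ K T + 2 * Δ →
        M (2 + n * Δ) T ≤ 7 / 9 * (T * Real.log T ^ ((2 + n * Δ) ^ 2))) →
      ∀ k : ℝ, 2 ≤ k → Good k T) ∧
    -- (5) the critical order and the growth of the zeta function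
    (∀ b : ℝ, 0 < b → Growth b → ∃ T₀ : ℝ, ∀ T : ℝ, T₀ ≤ T → ∀ k : ℝ, 2 ≤ k →
      2 * b * Real.sqrt (Real.log T / Real.log (Real.log T)) ≤ k + 2 → Good k T) ∧
    (∀ κ ε : ℝ, 0 < κ → 0 < ε →
      (∃ T₀ : ℝ, ∀ T : ℝ, T₀ ≤ T →
        Good (κ * Real.sqrt (Real.log T / Real.log (Real.log T))) T) →
      Growth (κ / 2 + 1 / κ + ε)) :=
  ⟨fun _ hT _ hj hg => ⟨fun _ ht => point hT hj hg ht, fun _ hjk hk => from_one hT hj hg hjk hk⟩,
    fun _ hT _ hj hg _ hjk => above hT hj hg hjk, Q2_iff,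
    fun _ _ hT hΔ hΔ2 h => finite hT hΔ hΔ2 h, fun _ hb h => of_growth hb h,
    fun _ _ hκ hε h => growth_of hκ hε h⟩

end Pool.Agent.Results.MP_3d0d30_nt.OrdersThatMatter
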